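import Pool.Agent.Helper11.PV.St2

/-!
# Project PV (MP_e12aa9_pr), module LIM (first order asymptotics of `E χ`)
-/

set_option autoImplicit false

namespace Pool.Agent.Helper29.PV

open Finset Filter MeasureTheory Pool.Agent.Helper82.CN Pool.Agent.Helper11.PV

theorem lim_log : Tendsto (fun n : ℕ => Real.log (n : ℝ)) atTop atTop :=
  Real.tendsto_log_atTop.comp tendsto_natCast_atTop_atTop

theorem lim_loglog {β : ℝ} (hβ : 0 < β) :
    Tendsto (fun n : ℕ => Real.log (Real.log (n : ℝ) / β) / Real.log (n : ℝ)) atTop (nhds 0) := by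
  have h1 : Tendsto (fun y : ℝ => Real.log y / y) atTop (nhds 0) :=
    Real.isLittleO_log_id_atTop.tendsto_div_nhds_zero
  have h2 : Tendsto (fun n : ℕ => Real.log (n : ℝ) / β) atTop atTop :=
    lim_log.atTop_div_const hβ
  have h3 := (h1.comp h2).const_mul (1 / β)
  rw [mul_zero] at h3
  refine h3.congr fun n => ?_
  simp only [Function.comp]
  field_simp

theorem lim_ga {p : ℝ} (hβ : 0 < bb p) (c : ℝ) :
    Tendsto (fun n : ℕ => (ga p n + c) / Real.log (n : ℝ)) atTop (nhds (2 / bb p)) := by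
  have h1 := (lim_loglog hβ).const_mul (2 / bb p)
  rw [mul_zero] at h1
  have h2 : Tendsto (fun n : ℕ => (2 * (1 - Real.log 2) / bb p - 2 / bb p + c) / Real.log (n : ℝ))
      atTop (nhds 0) := lim_log.const_div_atTop _
  have h3 := ((tendsto_const_nhds (x := 2 / bb p)).sub h1).add h2
  rw [sub_zero, add_zero] at h3
  refine h3.congr' ?_
  filter_upwards [lim_log.eventually_gt_atTop 0] with n hn
  unfold ga al
  field_simp
  ring

theorem lim_inv {p : ℝ} (hβ : 0 < bb p) (c : ℝ) :
    Tendsto (fun n : ℕ => Real.log (n : ℝ) / (ga p n + c)) atTop (nhds (bb p / 2)) := by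
  have h := (lim_ga hβ c).inv₀ (by positivity)
  rw [inv_div] at h
  refine h.congr fun n => ?_
  rw [inv_div]

theorem tLIM (hLOW : Pool.Agent.Helper82.CN.StLow) (hUPP : Pool.Agent.Helper82.CN.StUpp) :
    Pool.Agent.Helper11.PV.StLIM := by
  intro p hp hp1
  have he : 0 < Real.exp 2 := Real.exp_pos 2
  have hp2 : p < 1 := by
    have : 0 < 1 / Real.exp 2 := by positivity
    linarith
  have hβ : 0 < bb p := by
    unfold bb
    apply Real.log_pos
    rw [lt_div_iff₀ (by linarith)]
    linarith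
  obtain ⟨n1, h1⟩ := hLOW p 1 hp hp2 one_pos
  obtain ⟨n2, h2⟩ := hUPP p 1 hp hp1 one_pos
  refine tendsto_of_tendsto_of_tendsto_of_le_of_le' (lim_inv hβ 1) (lim_inv hβ (-1)) ?_ ?_
  · filter_upwards [eventually_ge_atTop n1, eventually_ge_atTop n2, eventually_gt_atTop 0,
      lim_log.eventually_gt_atTop 0] with n ha hb hn hL
    have h3 := h1 n ha
    have hn' : (0 : ℝ) < n := by exact_mod_cast hn
    have h4 := (h2 n hb).1
    rw [div_le_div_iff₀ (by linarith) hn']
    rw [div_le_iff₀ (by linarith)] at h3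
    nlinarith
  · filter_upwards [eventually_ge_atTop n2, eventually_gt_atTop 0,
      lim_log.eventually_gt_atTop 0] with n hb hn hL
    have hn' : (0 : ℝ) < n := by exact_mod_cast hn
    obtain ⟨h4, h5⟩ := h2 n hb
    rw [div_le_div_iff₀ hn' (by linarith)]
    rw [le_div_iff₀ h4] at h5
    nlinarith

end Pool.Agent.Helper29.PV
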