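import Pool.Agent.Helper61.PV.St

/-!
# PV, module NUL: numerical lemma for the lower bound
-/

set_option autoImplicit false

namespace Pool.Agent.Helper29.PV

open Pool.Agent.Helper61.PV Finset

theorem one_lt_log_three : (1 : ℝ) ≤ Real.log 3 := by
  rw [Real.le_log_iff_exp_le (by norm_num)]
  linarith [Real.exp_one_lt_d9]

/-- the pointwise bound -/
theorem nul_term {c L S T : ℝ} {d m : ℕ} (hc0 : 0 < c) (hL3 : 3 ≤ L) (hd : 1 ≤ d)
    (hT : T = d + L) (hS : S = L + d * Real.log T) (hTc : 1 / c ^ 2 ≤ T) (hm : 3 ≤ m) :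
    1 / (L + d * Real.log m) ≤ (if m ≤ ⌊√(c * S)⌋₊ then 1 / T else 0) + 4 / S := by
  have hd1 : (1 : ℝ) ≤ d := by exact_mod_cast hd
  have hT4 : 4 ≤ T := by linarith
  have hT0 : 0 < T := by linarith
  have hlT : 1 ≤ Real.log T := by
    rw [Real.le_log_iff_exp_le hT0]
    linarith [Real.exp_one_lt_d9]
  have hST : T ≤ S := by
    rw [hS]
    nlinarith
  have hS0 : 0 < S := by linarith
  have hm3 : (3 : ℝ) ≤ m := by exact_mod_cast hm
  have hlm : 1 ≤ Real.log m := one_lt_log_three.trans (Real.log_le_log (by norm_num) hm3)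
  split_ifs with h
  · have h1 : T ≤ L + d * Real.log m := by
      rw [hT]
      nlinarith
    have h2 : 1 / (L + d * Real.log m) ≤ 1 / T := one_div_le_one_div_of_le hT0 h1
    have h3 : 0 ≤ 4 / S := by positivity
    linarith
  · rw [zero_add]
    have h1 : √(c * S) < m := Nat.lt_of_floor_lt (not_le.1 h)
    have h2 : 0 < √(c * S) := Real.sqrt_pos.2 (by positivity)
    have h3 : Real.log (√(c * S)) ≤ Real.log m := Real.log_le_log h2 h1.le
    rw [Real.log_sqrt (by positivity), Real.log_mul hc0.ne' hS0.ne'] at h3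
    have h4 : Real.log T ≤ Real.log S := Real.log_le_log hT0 hST
    have h5 : Real.log (1 / c ^ 2) ≤ Real.log T := Real.log_le_log (by positivity) hTc
    rw [one_div, Real.log_inv, Real.log_pow] at h5
    push_cast at h5
    have h6 : Real.log T / 4 ≤ Real.log m := by linarith
    have h7 : S / 4 ≤ L + d * Real.log m := by
      rw [hS]
      nlinarith
    calc 1 / (L + d * Real.log m) ≤ 1 / (S / 4) := one_div_le_one_div_of_le (by positivity) h7
      _ = 4 / S := by field_simp

theorem hNul : StNul := by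
  intro ε hε
  set c : ℝ := min 1 ((ε / 5) ^ 2) with hc
  have hc0 : 0 < c := lt_min one_pos (by positivity)
  have hc1 : c ≤ 1 := min_le_left _ _
  have hcs : √c ≤ ε / 5 := by
    rw [Real.sqrt_le_left (by positivity)]
    exact min_le_right _ _
  have hcc : c ≤ √c := by
    have h1 : √c * √c = c := Real.mul_self_sqrt hc0.le
    have h2 : √c ≤ 1 := by
      rw [Real.sqrt_le_one]
      exact hc1
    nlinarith [Real.sqrt_nonneg c]
  refine ⟨c, ⌈Real.exp (max 3 (1 / c ^ 2))⌉₊, hc0, hc1, ?_⟩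
  intro H hH d hd
  have hH' : Real.exp (max 3 (1 / c ^ 2)) ≤ H :=
    (Nat.le_ceil _).trans (by exact_mod_cast hH)
  have hHpos : (0 : ℝ) < H := (Real.exp_pos _).trans_le hH'
  have hL : max 3 (1 / c ^ 2) ≤ Real.log H := by
    rw [Real.le_log_iff_exp_le hHpos]
    exact hH'
  have hL3 : 3 ≤ Real.log H := (le_max_left _ _).trans hL
  have hLc : 1 / c ^ 2 ≤ Real.log H := (le_max_right _ _).trans hL
  have hd1 : (1 : ℝ) ≤ d := by exact_mod_cast hd
  obtain ⟨T, hT⟩ : ∃ T : ℝ, T = d + Real.log H := ⟨_, rfl⟩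
  obtain ⟨S, hS⟩ : ∃ S : ℝ, S = Real.log H + d * Real.log T := ⟨_, rfl⟩
  have hSz : Sz H d = S := by
    unfold Sz
    rw [hS, hT]
  rw [hSz]
  have hT0 : 0 < T := by linarith
  have hlT : 1 ≤ Real.log T := by
    rw [Real.le_log_iff_exp_le hT0]
    linarith [Real.exp_one_lt_d9]
  have hS0 : 0 < S := by
    rw [hS]
    nlinarith
  have hSTT : S ≤ T ^ 2 := by
    have h1 : Real.log T ≤ T - 1 := Real.log_le_sub_one_of_pos hT0
    have h2 : (d : ℝ) * Real.log T ≤ d * (T - 1) := mul_le_mul_of_nonneg_left h1 (by linarith)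
    have h3 : T ^ 2 = (d + Real.log H) * T := by rw [← hT]; ring
    rw [h3, hS]
    nlinarith
  set s := (range (⌊c * S⌋₊ + 1)).filter (fun m => 3 ≤ m) with hs
  calc ∑ m ∈ s, 1 / (Real.log H + d * Real.log m)
      ≤ ∑ m ∈ s, ((if m ≤ ⌊√(c * S)⌋₊ then 1 / T else 0) + 4 / S) := by
        apply Finset.sum_le_sum
        intro m hm
        rw [hs, mem_filter] at hm
        exact nul_term hc0 hL3 hd hT hS (hLc.trans (by rw [hT]; linarith)) hm.2
    _ = #(s.filter (fun m => m ≤ ⌊√(c * S)⌋₊)) * (1 / T) + #s * (4 / S) := by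
        rw [Finset.sum_add_distrib, Finset.sum_const, nsmul_eq_mul, ← Finset.sum_filter,
          Finset.sum_const, nsmul_eq_mul]
    _ ≤ √c + 4 * c := by
        have h1 : #(s.filter (fun m => m ≤ ⌊√(c * S)⌋₊)) ≤ ⌊√(c * S)⌋₊ := by
          have h2 : s.filter (fun m => m ≤ ⌊√(c * S)⌋₊) ⊆ Icc 1 ⌊√(c * S)⌋₊ := by
            intro m hm
            rw [mem_filter, hs, mem_filter] at hm
            rw [mem_Icc]
            omega
          have h3 := card_le_card h2
          rw [Nat.card_Icc] at h3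
          omega
        have h2 : #s ≤ ⌊c * S⌋₊ := by
          have h2 : s ⊆ Icc 1 ⌊c * S⌋₊ := by
            intro m hm
            rw [hs, mem_filter, mem_range] at hm
            rw [mem_Icc]
            omega
          have h3 := card_le_card h2
          rw [Nat.card_Icc] at h3
          omega
        have h3 : (#(s.filter (fun m => m ≤ ⌊√(c * S)⌋₊)) : ℝ) ≤ √c * T := by
          have h4 : (#(s.filter (fun m => m ≤ ⌊√(c * S)⌋₊)) : ℝ) ≤ (⌊√(c * S)⌋₊ : ℝ) := by
            exact_mod_cast h1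
          have h5 : (⌊√(c * S)⌋₊ : ℝ) ≤ √(c * S) := Nat.floor_le (Real.sqrt_nonneg _)
          have h6 : √(c * S) ≤ √c * T := by
            rw [Real.sqrt_mul hc0.le]
            apply mul_le_mul_of_nonneg_left _ (Real.sqrt_nonneg _)
            rw [Real.sqrt_le_left hT0.le]
            exact hSTT
          linarith
        have h4 : (#s : ℝ) ≤ c * S := by
          have h5 : (#s : ℝ) ≤ (⌊c * S⌋₊ : ℝ) := by exact_mod_cast h2
          exact h5.trans (Nat.floor_le (by positivity))
        have h5 : (#(s.filter (fun m => m ≤ ⌊√(c * S)⌋₊)) : ℝ) * (1 / T) ≤ √c := by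
          rw [mul_one_div, div_le_iff₀ hT0]
          exact h3
        have h6 : (#s : ℝ) * (4 / S) ≤ 4 * c := by
          rw [mul_div_assoc', div_le_iff₀ hS0]
          linarith
        linarith
    _ ≤ ε := by linarith

end Pool.Agent.Helper29.PV
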