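import Pool.Agent.Helper61.PV.St

/-!
# PV, module PDG: two values of a polynomial at once
-/

set_option autoImplicit false

namespace Pool.Agent.Helper29.PV

open Pool.Agent.Helper61.PV Finset

theorem ev_cons (e : ℕ) (V : Fin (e + 1) → ℤ) (m : ℤ) :
    ev (d := e + 1) (Fin.cons (α := fun _ => ℤ) 0 V) m = m * ev V m := by
  unfold ev
  rw [Fin.sum_univ_succ]
  simp only [Fin.cons_zero, zero_mul, Fin.cons_succ, Fin.val_succ, zero_add, Finset.mul_sum]
  apply Finset.sum_congr rfl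
  intro i _
  ring

theorem ev_snoc (e : ℕ) (V : Fin (e + 1) → ℤ) (m : ℤ) :
    ev (d := e + 1) (Fin.snoc (α := fun _ => ℤ) V 0) m = ev V m := by
  unfold ev
  rw [Fin.sum_univ_castSucc]
  simp only [Fin.snoc_castSucc, Fin.snoc_last, zero_mul, add_zero, Fin.val_castSucc]

theorem ev_comb (e : ℕ) (U : Fin (e + 1 + 1) → ℤ) (V : Fin (e + 1) → ℤ) (a m : ℤ) :
    ev (fun i => U i + Fin.cons (α := fun _ => ℤ) 0 V i
      - a * Fin.snoc (α := fun _ => ℤ) V 0 i) m = ev U m + (m - a) * ev V m := by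
  have h1 := ev_cons e V m
  have h2 := ev_snoc e V m
  have h3 : ev (fun i => U i + Fin.cons (α := fun _ => ℤ) 0 V i
      - a * Fin.snoc (α := fun _ => ℤ) V 0 i) m = ev U m
      + ev (d := e + 1) (Fin.cons (α := fun _ => ℤ) 0 V) m
      - a * ev (d := e + 1) (Fin.snoc (α := fun _ => ℤ) V 0) m := by
    unfold ev
    rw [Finset.mul_sum, ← Finset.sum_add_distrib, ← Finset.sum_sub_distrib]
    apply Finset.sum_congr rfl
    intro i _
    ring
  rw [h3, h1, h2]
  ring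

theorem digits (hDig : StDig) (d m B : ℕ) (hm : 1 ≤ m) (hB : m ≤ B) (u : ℕ) :
    ∃ b : Fin (d + 1) → ℤ, u < m ^ d * B → (∀ i, 0 ≤ b i) ∧ (∀ i, b i < B) ∧ ev b m = u := by
  by_cases hu : u < m ^ d * B
  · obtain ⟨b, b1, b2, b3, b4⟩ := hDig d m B u hm hu
    refine ⟨b, fun _ => ⟨b1, fun i => ?_, b4⟩⟩
    by_cases hi : (i : ℕ) < d
    · have h1 := b2 i hi
      have h2 : (m : ℤ) ≤ B := by exact_mod_cast hB
      omega
    · have h1 : i = Fin.last d := by
        ext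
        have := i.isLt
        simp only [Fin.val_last]
        omega
      rw [h1]
      exact b3
  · exact ⟨0, fun h => absurd h hu⟩

theorem hPdg (hDig : StDig) : StPdg := by
  intro d m₁ m₂ B hd h1 h12 h2B
  obtain ⟨e, rfl⟩ : ∃ e, d = e + 1 := ⟨d - 1, by omega⟩
  choose U hU using digits hDig (e + 1) m₁ B h1 (h12.trans h2B)
  choose V hV using digits hDig e m₂ B (h1.trans h12) h2B
  refine ⟨fun u => ev (U u) m₂, fun u v i => U u i + Fin.cons (α := fun _ => ℤ) 0 (V v) i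
      - (m₁ : ℤ) * Fin.snoc (α := fun _ => ℤ) (V v) 0 i, ?_⟩
  intro u hu v hv
  obtain ⟨u1, u2, u3⟩ := hU u hu
  obtain ⟨v1, v2, v3⟩ := hV v hv
  have hB1 : (1 : ℤ) ≤ B := by exact_mod_cast (h1.trans (h12.trans h2B))
  have hm1 : (1 : ℤ) ≤ m₁ := by exact_mod_cast h1
  have hm12 : (m₁ : ℤ) ≤ m₂ := by exact_mod_cast h12
  refine ⟨fun i => ?_, ?_, ?_⟩
  · have c1 : 0 ≤ Fin.cons (α := fun _ => ℤ) 0 (V v) i ∧
        Fin.cons (α := fun _ => ℤ) 0 (V v) i < B := by
      refine Fin.cases ?_ (fun j => ?_) i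
      · simp only [Fin.cons_zero]
        omega
      · simp only [Fin.cons_succ]
        exact ⟨v1 j, v2 j⟩
    have c2 : 0 ≤ Fin.snoc (α := fun _ => ℤ) (V v) 0 i ∧
        Fin.snoc (α := fun _ => ℤ) (V v) 0 i < B := by
      refine Fin.lastCases ?_ (fun j => ?_) i
      · simp only [Fin.snoc_last]
        omega
      · simp only [Fin.snoc_castSucc]
        exact ⟨v1 j, v2 j⟩
    have hu1 := u1 i
    have hu2 := u2 i
    push_cast
    rw [abs_le]
    generalize (Fin.cons (α := fun _ => ℤ) 0 (V v) i) = x at c1 ⊢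
    generalize (Fin.snoc (α := fun _ => ℤ) (V v) 0 i) = y at c2 ⊢
    have hmB : (B : ℤ) ≤ m₂ * B := by nlinarith
    have hmy : (m₁ : ℤ) * y ≤ m₂ * B := by
      have : (m₁ : ℤ) * y ≤ m₂ * y := by nlinarith [c2.1]
      have h3 : (m₂ : ℤ) * y ≤ m₂ * B := by nlinarith [c2.2]
      linarith
    have hmy0 : 0 ≤ (m₁ : ℤ) * y := mul_nonneg (by linarith) c2.1
    constructor <;> nlinarith
  · rw [ev_comb, u3]
    ring
  · rw [ev_comb]
    rw [v3]

end Pool.Agent.Helper29.PV
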